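import Pool.Agent.V5helper50.RS.Stm2

/-!
# Project RS: assembly with the jobs as hypotheses
-/

set_option autoImplicit false

open Finset MeasureTheory ProbabilityTheory

namespace Pool.Agent.V5helper50.RS

theorem main_of (hLAW : S_LAW) (hCHU : S_CHU) (hCHL : S_CHL) (hREC : S_REC) (hMA : S_MA)
    (hINT : S_INT) (hRES : S_RES) (hMB : S_MB) (hMC : S_MC) (hBND : S_BND) (hUP : S_UP)
    (hLOWM : S_LOWM) (hLOW : S_LOW) (hCNV : S_CNV) (hNR : S_NR) (hBC : S_BC) (hASM : S_ASM)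
    {k d : ℕ} (hk : 2 ≤ k) (hd : k + 1 ≤ d) : Main k d := by
  have hMB' := hMB hINT hRES
  have hMC' := hMC hMB hINT hRES
  have hBND' := hBND hCHU hREC hMA hMC'
  exact hASM hLAW hBC hNR hCNV k d hk hd (hUP hCHU hREC hMA hMB' hBND' k d hk hd)
    (hLOW hCHL (hLOWM hRES) hBND' k d hk hd)

/-- if the random sphere is not empty then `u` is represented modulo `Q` -/
theorem rep_of_ne {k Q d u : ℕ} {t : ℕ → ℕ} (h : N k Q t d u ≠ 0) :
    ∃ x : Fin d → ZMod Q, ∑ i, x i ^ k = (u : ZMod Q) := by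
  have h1 : {z : Fin d → ℤ | ∑ i, a k Q t (z i).natAbs = u}.Nonempty := by
    by_contra hcon
    rw [Set.not_nonempty_iff_eq_empty] at hcon
    apply h
    unfold N
    rw [hcon, Set.ncard_empty]
  obtain ⟨z, hz⟩ := h1
  refine ⟨fun i => ((z i).natAbs : ZMod Q), ?_⟩
  have h2 : ((∑ i, a k Q t (z i).natAbs : ℕ) : ZMod Q) = (u : ZMod Q) := by
    rw [show (∑ i, a k Q t (z i).natAbs) = u from hz]
  rw [← h2]
  push_cast
  refine sum_congr rfl fun i _ => ?_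
  unfold a
  push_cast
  rw [ZMod.natCast_self, zero_mul, add_zero]

/-- bounds for `rho` for fixed `Q` -/
theorem rho_bounds {k Q d u : ℕ} (hQ : 1 ≤ Q) (hd : 1 ≤ d)
    (h : ∃ x : Fin d → ZMod Q, ∑ i, x i ^ k = (u : ZMod Q)) :
    1 / (Q : ℝ) ^ (d - 1) ≤ rho k Q d u ∧ rho k Q d u ≤ Q := by
  have : NeZero Q := ⟨by omega⟩
  have hQ0 : (0 : ℝ) < Q := by exact_mod_cast hQ
  have hpos : (0 : ℝ) < (Q : ℝ) ^ (d - 1) := by positivity
  unfold rho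
  constructor
  · rw [div_le_div_iff_of_pos_right hpos]
    obtain ⟨x, hx⟩ := h
    have : Nonempty {x : Fin d → ZMod Q // ∑ i, x i ^ k = (u : ZMod Q)} := ⟨⟨x, hx⟩⟩
    have h1 : 0 < Nat.card {x : Fin d → ZMod Q // ∑ i, x i ^ k = (u : ZMod Q)} := Nat.card_pos
    exact_mod_cast h1
  · rw [div_le_iff₀ hpos]
    have h1 : Nat.card {x : Fin d → ZMod Q // ∑ i, x i ^ k = (u : ZMod Q)} ≤ Q ^ d := by
      refine (Nat.card_le_card_of_injective Subtype.val Subtype.val_injective).trans ?_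
      rw [Nat.card_eq_fintype_card, Fintype.card_fun, ZMod.card, Fintype.card_fin]
    have h2 : (Q : ℝ) * (Q : ℝ) ^ (d - 1) = (Q : ℝ) ^ d := by
      rw [← pow_succ']
      congr 1
      omega
    rw [h2]
    exact_mod_cast h1

/-- the order of magnitude for each fixed `Q` -/
theorem fixed_of {k d : ℕ} (hk : 2 ≤ k) (hd : k + 1 ≤ d) (hM : Main k d) (Q : ℕ) (hQ : 1 ≤ Q) :
    ∃ c C : ℝ, 0 < c ∧ c ≤ C ∧
      ∀ (Ω : Type) [MeasurableSpace Ω] (μ : Measure Ω) (θ : ℕ → Ω → ℕ), Model k μ θ →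
        ∀ᵐ ω ∂μ, ∃ u₀ : ℕ, ∀ u ≥ u₀, N k Q (fun x => θ x ω) d u ≠ 0 →
          c * (u : ℝ) ^ ((d : ℝ) / k - 1) ≤ N k Q (fun x => θ x ω) d u ∧
          (N k Q (fun x => θ x ω) d u : ℝ) ≤ C * (u : ℝ) ^ ((d : ℝ) / k - 1) := by
  obtain ⟨c, C, hc, hcC, h⟩ := hM
  have hQ0 : (0 : ℝ) < Q := by exact_mod_cast hQ
  have hQ1 : (1 : ℝ) ≤ Q := by exact_mod_cast hQ
  have hp1 : (1 : ℝ) ≤ (Q : ℝ) ^ (d - 1) := one_le_pow₀ hQ1
  refine ⟨c * (1 / (Q : ℝ) ^ (d - 1)), C * Q, by positivity, ?_, ?_⟩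
  · have h1 : 1 / (Q : ℝ) ^ (d - 1) ≤ 1 := by
      rw [div_le_one (by positivity)]
      exact hp1
    have h2 : c * (1 / (Q : ℝ) ^ (d - 1)) ≤ c * 1 := by gcongr
    nlinarith
  · intro Ω _ μ θ hθ
    filter_upwards [h Q hQ Ω μ θ hθ] with ω hω
    obtain ⟨u₀, hu₀⟩ := hω
    refine ⟨u₀, fun u hu hne => ?_⟩
    obtain ⟨h1, h2⟩ := hu₀ u hu
    obtain ⟨h3, h4⟩ := rho_bounds hQ (by omega) (rep_of_ne hne)
    have hu0 : (0 : ℝ) ≤ (u : ℝ) ^ ((d : ℝ) / k - 1) := by positivity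
    constructor
    · refine le_trans ?_ h1
      gcongr
    · refine h2.trans ?_
      have : 0 < C := lt_of_lt_of_le hc hcC
      gcongr

end Pool.Agent.V5helper50.RS
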