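import Pool.Agent.V5helper50.RS.Stm2
import Pool.Agent.TH854.KS.K6

/-!
# Project RS: the order of magnitude is not uniform in `Q` in the dimensions `d ≤ k`
-/

set_option autoImplicit false

open Finset MeasureTheory ProbabilityTheory

namespace Pool.Agent.V5helper50.RS

/-- the densities modulo `W` are unbounded in dimension `k` -/
theorem unb {k : ℕ} (hk : 3 ≤ k) (K : ℝ) :
    ∃ W : ℕ, 0 < W ∧ K * (W : ℝ) ^ (k - 1) ≤ (TH854.KS.M W k k : ℝ) := by
  classical
  obtain ⟨N0, hN0⟩ := exists_nat_ge ((2 * ((k : ℝ) ^ (k + 1) + 1)) ^ 2)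
  obtain ⟨P, hP, hB⟩ := TH854.KS.exists_primes N0 K
  set W := ∏ p ∈ P, p ^ k with hW
  have hWpos : 0 < W := by
    rw [hW]
    exact prod_pos (fun p hp => pow_pos (hP p hp).1.pos _)
  refine ⟨W, hWpos, ?_⟩
  have h2 : (TH854.KS.M W k k : ℝ) = ∏ p ∈ P, (TH854.KS.M (p ^ k) k k : ℝ) := by
    rw [hW, TH854.KS.M_prod P (fun p hp => (hP p hp).1)]
    push_cast
    rfl
  have h3 : (∏ p ∈ P, (1 + 1 / (2 * (p : ℝ)))) * (W : ℝ) ^ (k - 1) ≤ (TH854.KS.M W k k : ℝ) := by
    rw [h2, hW]
    push_cast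
    rw [← prod_pow, ← prod_mul_distrib]
    apply prod_le_prod
    · intro p _; positivity
    · intro p hp
      have : Fact p.Prime := ⟨(hP p hp).1⟩
      have h4 := TH854.KS.density (p := p) hk (Or.inl rfl) (hN0.trans (by exact_mod_cast (hP p hp).2))
      rw [pow_mul] at h4
      exact h4
  have hW1 : (0 : ℝ) < (W : ℝ) ^ (k - 1) := by
    have : (0 : ℝ) < W := by exact_mod_cast hWpos
    positivity
  exact (mul_le_mul_of_nonneg_right hB hW1.le).trans h3

theorem le_a {k Q : ℕ} (hk : 1 ≤ k) (t : ℕ → ℕ) (x : ℕ) : x ≤ a k Q t x :=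
  (Nat.le_self_pow (by omega) x).trans (Nat.le_add_right _ _)

theorem N_finite {k Q : ℕ} (hk : 1 ≤ k) (t : ℕ → ℕ) (d u : ℕ) :
    {z : Fin d → ℤ | ∑ i, a k Q t (z i).natAbs = u}.Finite := by
  apply Set.Finite.subset (Set.Finite.pi' (fun _ : Fin d => Set.finite_Icc (-(u : ℤ)) u))
  intro z hz i
  have hz' : ∑ i, a k Q t (z i).natAbs = u := hz
  have h1 : a k Q t (z i).natAbs ≤ u := by
    rw [← hz']
    exact single_le_sum (f := fun i => a k Q t (z i).natAbs) (fun _ _ => Nat.zero_le _) (mem_univ i)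
  have h2 := (le_a (Q := Q) hk t (z i).natAbs).trans h1
  rw [Set.mem_Icc]
  omega

/-- the averaging argument in dimension `k` -/
theorem avg {k W : ℕ} (hk : 3 ≤ k) (hW : 0 < W) (t : ℕ → ℕ) (ht : ∀ x, t x < Tk k x) (u₀ : ℕ) (C : ℝ)
    (hC : 0 ≤ C) (H : ∀ u ≥ u₀, (N k W t k u : ℝ) ≤ C) :
    (TH854.KS.M W k k : ℝ) < (2 * k * C + C + 2) * (W : ℝ) ^ (k - 1) := by
  classical
  set L := max (4 * k) (u₀ + 1) with hL
  have hL4 : 4 * k ≤ L := le_max_left _ _
  have hLu : u₀ + 1 ≤ L := le_max_right _ _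
  have hL1 : 1 ≤ L := by omega
  set X := W * L with hX
  have hX1 : 1 ≤ X := Nat.mul_pos hW hL1
  have haX : ∀ y, y < X → a k W t y ≤ 2 * X ^ k := by
    intro y hy
    unfold a
    have h1 : y ^ k ≤ X ^ k := Nat.pow_le_pow_left hy.le k
    have h2 : t y ≤ max 1 (4 * k * X ^ (k - 1)) := by
      refine (ht y).le.trans ?_
      unfold Tk
      gcongr
    have h4k : 1 ≤ 4 * k * X ^ (k - 1) := Nat.mul_pos (by omega) (pow_pos hX1 _)
    rw [max_eq_right h4k] at h2
    have h3 : W * t y ≤ X ^ k := by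
      calc W * t y ≤ W * (4 * k * X ^ (k - 1)) := Nat.mul_le_mul_left _ h2
        _ = (W * (4 * k)) * X ^ (k - 1) := by ring
        _ ≤ (W * L) * X ^ (k - 1) := by gcongr
        _ = X ^ (k - 1 + 1) := by rw [pow_succ, ← hX]; ring
        _ = X ^ k := by congr 1; omega
    omega
  set B := (TH854.KS.Box k X).filter (fun y => W ∣ ∑ i, y i ^ k) with hB
  set S := (range (2 * k * X ^ k + 1)).filter (fun n => W ∣ n) with hS
  have hmaps : ∀ y ∈ B, ∑ i, a k W t (y i) ∈ S := by
    intro y hy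
    rw [hB, mem_filter, TH854.KS.mem_Box] at hy
    rw [hS, mem_filter, mem_range]
    constructor
    · have : ∑ i, a k W t (y i) ≤ ∑ _i : Fin k, 2 * X ^ k := sum_le_sum fun i _ => haX _ (hy.1 i)
      rw [sum_const, card_univ, Fintype.card_fin, smul_eq_mul] at this
      have e : k * (2 * X ^ k) = 2 * k * X ^ k := by ring
      omega
    · unfold a
      rw [sum_add_distrib, ← mul_sum]
      exact Dvd.dvd.add hy.2 (Dvd.intro _ rfl)
  have h1 : L ^ k * TH854.KS.M W k k ≤ B.card := TH854.KS.box_ge hW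
  rw [card_eq_sum_card_fiberwise hmaps, ← sum_filter_add_sum_filter_not S (fun n => n < u₀)] at h1
  have h2 : ∑ n ∈ S.filter (fun n => n < u₀), (B.filter (fun y => ∑ i, a k W t (y i) = n)).card ≤
      u₀ ^ k := by
    have e : u₀ ^ k = (TH854.KS.Box k u₀).card := by
      simp [TH854.KS.Box]
    rw [e, ← card_biUnion]
    · apply card_le_card
      intro y hy
      rw [mem_biUnion] at hy
      obtain ⟨n, hn, hy⟩ := hy
      rw [mem_filter] at hn hy
      rw [TH854.KS.mem_Box]
      intro i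
      have h3 : a k W t (y i) ≤ n := by
        rw [← hy.2]
        exact single_le_sum (f := fun i => a k W t (y i)) (fun _ _ => Nat.zero_le _) (mem_univ i)
      exact lt_of_le_of_lt ((le_a (by omega) t (y i)).trans h3) hn.2
    · intro n _ n' _ hnn
      rw [Function.onFun, disjoint_left]
      intro y hy hy'
      rw [mem_filter] at hy hy'
      exact hnn (hy.2.symm.trans hy'.2)
  have h3 : ((∑ n ∈ S.filter (fun n => ¬ n < u₀),
      (B.filter (fun y => ∑ i, a k W t (y i) = n)).card : ℕ) : ℝ) ≤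
      (2 * k * L ^ k * (W : ℝ) ^ (k - 1) + 1) * C := by
    push_cast
    have h4 : ∀ n ∈ S.filter (fun n => ¬ n < u₀),
        ((B.filter (fun y => ∑ i, a k W t (y i) = n)).card : ℝ) ≤ C := by
      intro n hn
      rw [mem_filter] at hn
      refine le_trans ?_ (H n (by omega))
      have h5 : (B.filter (fun y => ∑ i, a k W t (y i) = n)).card ≤ N k W t k n := by
        unfold N
        rw [← Set.ncard_coe_finset]
        refine Set.ncard_le_ncard_of_injOn (fun y i => (y i : ℤ)) ?_ ?_ (N_finite (by omega) t k n)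
        · intro y hy
          rw [mem_coe, mem_filter] at hy
          show ∑ i, a k W t ((y i : ℤ)).natAbs = n
          simp only [Int.natAbs_natCast]
          exact hy.2
        · intro y _ y' _ h
          funext i
          have h6 : ((y i : ℕ) : ℤ) = ((y' i : ℕ) : ℤ) := congrFun h i
          exact_mod_cast h6
      exact_mod_cast h5
    refine (sum_le_sum h4).trans ?_
    rw [sum_const, nsmul_eq_mul]
    refine mul_le_mul_of_nonneg_right ?_ hC
    have h6 : S.card ≤ 2 * k * X ^ k / W + 1 := by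
      rw [hS]
      have h7 : ((range (2 * k * X ^ k + 1)).filter (fun n => W ∣ n)) ⊆
          (range (2 * k * X ^ k / W + 1)).image (fun m => W * m) := by
        intro n hn
        rw [mem_filter, mem_range] at hn
        obtain ⟨h8, m, rfl⟩ := hn
        rw [mem_image]
        refine ⟨m, ?_, rfl⟩
        rw [mem_range, Nat.lt_succ_iff, Nat.le_div_iff_mul_le hW]
        rw [mul_comm]
        omega
      exact (card_le_card h7).trans (card_image_le.trans (by rw [card_range]))
    have h7 : 2 * k * X ^ k / W = 2 * k * L ^ k * W ^ (k - 1) := by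
      apply Nat.div_eq_of_eq_mul_left hW
      rw [hX, mul_pow]
      have : W ^ k = W ^ (k - 1) * W := by
        rw [← pow_succ]; congr 1; omega
      rw [this]; ring
    have h8 : (S.filter (fun n => ¬ n < u₀)).card ≤ 2 * k * L ^ k * W ^ (k - 1) + 1 := by
      rw [← h7]
      exact (card_filter_le _ _).trans h6
    exact_mod_cast h8
  by_contra hcon
  push Not at hcon
  have hLk : (1 : ℝ) ≤ (L : ℝ) ^ k := one_le_pow₀ (by exact_mod_cast hL1)
  have hWk : (1 : ℝ) ≤ (W : ℝ) ^ (k - 1) := one_le_pow₀ (by exact_mod_cast hW)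
  have h9 : (L : ℝ) ^ k * (TH854.KS.M W k k : ℝ) ≤
      (u₀ : ℝ) ^ k + (2 * k * L ^ k * (W : ℝ) ^ (k - 1) + 1) * C := by
    have h10 : ((L ^ k * TH854.KS.M W k k : ℕ) : ℝ) ≤ ((∑ n ∈ S.filter (fun n => n < u₀),
        (B.filter (fun y => ∑ i, a k W t (y i) = n)).card + ∑ n ∈ S.filter (fun n => ¬ n < u₀),
      (B.filter (fun y => ∑ i, a k W t (y i) = n)).card : ℕ) : ℝ) := by exact_mod_cast h1
    have h11 : ((∑ n ∈ S.filter (fun n => n < u₀),
      (B.filter (fun y => ∑ i, a k W t (y i) = n)).card : ℕ) : ℝ) ≤ (u₀ : ℝ) ^ k := by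
      exact_mod_cast h2
    rw [Nat.cast_add] at h10
    rw [Nat.cast_mul, Nat.cast_pow] at h10
    linarith
  have h12 : (u₀ : ℝ) ^ k < (L : ℝ) ^ k := by
    apply pow_lt_pow_left₀
    · exact_mod_cast (by omega : u₀ < L)
    · positivity
    · omega
  have h13 : (L : ℝ) ^ k * ((2 * k * C + C + 2) * (W : ℝ) ^ (k - 1)) ≤
      (L : ℝ) ^ k * (TH854.KS.M W k k : ℝ) := by gcongr
  have h14 : (C + 2) * ((L : ℝ) ^ k * (W : ℝ) ^ (k - 1)) < (L : ℝ) ^ k + C := by nlinarith
  have h15 : (1 : ℝ) ≤ (L : ℝ) ^ k * (W : ℝ) ^ (k - 1) := by nlinarith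
  have h16 : (L : ℝ) ^ k ≤ (L : ℝ) ^ k * (W : ℝ) ^ (k - 1) := by nlinarith
  nlinarith

/-- **Theorem.** No uniform order of magnitude for `d ≤ k`. -/
theorem fails_low (hMOD : S_MOD) {k d : ℕ} (hk : 3 ≤ k) (hd1 : 1 ≤ d) (hd : d ≤ k) :
    ¬ UniformOrder k d := by
  rintro ⟨c, C, hc, hcC, h⟩
  have hC0 : 0 < C := lt_of_lt_of_le hc hcC
  obtain ⟨Ω, mΩ, μ, θ, hθ⟩ := hMOD k
  have hprob := hθ.prob
  rcases Nat.lt_or_ge d k with hlt | hge
  · obtain ⟨ω, u₀, hu⟩ := (h 1 le_rfl Ω μ θ hθ).exists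
    set t : ℕ → ℕ := fun x => θ x ω with ht
    have hk0 : (0 : ℝ) < k := by exact_mod_cast (by omega : 0 < k)
    have hs : 0 < 1 - (d : ℝ) / k := by
      rw [sub_pos, div_lt_one hk0]
      exact_mod_cast hlt
    have hlim : Filter.Tendsto (fun u : ℕ => C * (u : ℝ) ^ (-(1 - (d : ℝ) / k))) Filter.atTop
        (nhds (C * 0)) :=
      ((tendsto_rpow_neg_atTop hs).comp tendsto_natCast_atTop_atTop).const_mul C
    rw [mul_zero] at hlim
    have hev := hlim.eventually_lt_const (show (0 : ℝ) < 1 by norm_num)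
    obtain ⟨u₁, hu₁⟩ := Filter.eventually_atTop.mp hev
    set x := max u₀ u₁ with hx
    set u := a k 1 t x with hu_def
    have hxu : x ≤ u := le_a (by omega) t x
    have h0 : a k 1 t 0 = 0 := by
      have h1 : t 0 < Tk k 0 := hθ.bound 0 ω
      unfold Tk at h1
      rw [zero_pow (by omega : k - 1 ≠ 0)] at h1
      unfold a
      rw [zero_pow (by omega : k ≠ 0)]
      simp at h1
      omega
    have hmem : (fun i : Fin d => if (i : ℕ) = 0 then (x : ℤ) else 0) ∈
        {z : Fin d → ℤ | ∑ i, a k 1 t (z i).natAbs = u} := by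
      show ∑ i : Fin d, a k 1 t (if (i : ℕ) = 0 then (x : ℤ) else 0).natAbs = u
      rw [Finset.sum_eq_single (⟨0, by omega⟩ : Fin d)]
      · simp [hu_def]
      · intro i _ hi
        have : (i : ℕ) ≠ 0 := fun h => hi (Fin.ext h)
        rw [if_neg this]
        simpa using h0
      · intro h
        exact absurd (mem_univ _) h
    have hN : 1 ≤ N k 1 t d u := by
      unfold N
      exact (Set.ncard_pos (N_finite (by omega) t d u)).mpr ⟨_, hmem⟩
    have h1 := (hu u ((le_max_left _ _).trans hxu) (by omega)).2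
    have h2 := hu₁ u ((le_max_right _ _).trans hxu)
    have h3 : (d : ℝ) / k - 1 = -(1 - (d : ℝ) / k) := by ring
    rw [h3] at h1
    have h4 : (1 : ℝ) ≤ (N k 1 t d u : ℝ) := by exact_mod_cast hN
    linarith
  · have hdk : d = k := by omega
    subst hdk
    obtain ⟨W, hW, hWM⟩ := unb hk (2 * d * C + C + 2)
    obtain ⟨ω, u₀, hu⟩ := (h W hW Ω μ θ hθ).exists
    have h1 := avg hk hW (fun x => θ x ω) (fun x => hθ.bound x ω) u₀ C hC0.le (by
      intro u hu'
      by_cases h0 : N d W (fun x => θ x ω) d u = 0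
      · rw [h0]
        simpa using hC0.le
      · have h2 := (hu u hu' h0).2
        have hd0 : (d : ℝ) ≠ 0 := by exact_mod_cast (by omega : d ≠ 0)
        rw [div_self hd0, sub_self, Real.rpow_zero, mul_one] at h2
        exact h2)
    linarith

end Pool.Agent.V5helper50.RS
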