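import Pool.Agent.V5helper50.RS.Stm

/-!
# Project RS: the final steps
-/

set_option autoImplicit false

open Finset MeasureTheory ProbabilityTheory

namespace Pool.Agent.V5helper50.RS

/-- the random model: independent shifts, `θ x` uniform on `{0, …, Tk k x - 1}` -/
structure Model (k : ℕ) {Ω : Type} [MeasurableSpace Ω] (μ : Measure Ω) (θ : ℕ → Ω → ℕ) : Prop where
  prob : IsProbabilityMeasure μ
  meas : ∀ x, Measurable (θ x)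
  indep : iIndepFun θ μ
  bound : ∀ x ω, θ x ω < Tk k x
  unif : ∀ x, ∀ v < Tk k x, μ.real {ω | θ x ω = v} = 1 / Tk k x

/-- the number of the points `m ∈ ℤ ^ d` with `∑ a |m_i| = u` -/
noncomputable def N (k Q : ℕ) (t : ℕ → ℕ) (d u : ℕ) : ℕ :=
  {z : Fin d → ℤ | ∑ i, a k Q t (z i).natAbs = u}.ncard

/-- the density of the solutions modulo `Q` -/
noncomputable def rho (k Q d u : ℕ) : ℝ :=
  (Nat.card {x : Fin d → ZMod Q // ∑ i, x i ^ k = (u : ZMod Q)} : ℝ) / (Q : ℝ) ^ (d - 1)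

/-- **MOD** (60 lines). Existence of the model: `Ω = ∀ x, Fin (T x)` (or `ℕ → ℕ`) with the product measure
(`Measure.infinitePi`, `iIndepFun_infinitePi`) of the uniform measures (`PMF.uniformOfFintype`, or
`ProbabilityTheory.uniformOn univ`); `θ x ω = ω x`. -/
def S_MOD : Prop := ∀ k : ℕ, ∃ (Ω : Type) (_ : MeasurableSpace Ω) (μ : Measure Ω) (θ : ℕ → Ω → ℕ),
  Model k μ θ

/-- **CNV** (60 lines). `M` in terms of `ZMod Q` (for `Q ≥ 1`): the map `x ↦ (x_l : ZMod Q)_l`,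
inverse `ZMod.val`; `(ZMod.natCast_eq_natCast_iff' …)`. -/
def S_CNV : Prop := ∀ k Q d u : ℕ, 1 ≤ Q →
  (M k Q d u : ℝ) = Nat.card {x : Fin d → ZMod Q // ∑ i, x i ^ k = (u : ZMod Q)}

/-- **NR** (80 lines). Signs: with `L ^ k ≤ u < (L + 1) ^ k` the solutions have `|z_i| ≤ L` (`a x ≥ x ^ k`), so
`z ↦ (|z_i|)_i` maps the solutions of `N` onto those of `R d (L + 1)`, with at most `2 ^ d` elements in each
fibre; a solution `x ∈ ℕ ^ d` is itself a solution. -/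
def S_NR : Prop := ∀ (k Q : ℕ) (t : ℕ → ℕ) (d L u : ℕ), 1 ≤ k → L ^ k ≤ u → u < (L + 1) ^ k →
  R k Q t d (L + 1) u ≤ N k Q t d u ∧ N k Q t d u ≤ 2 ^ d * R k Q t d (L + 1) u

/-- **BC** (100 lines). Borel-Cantelli. From LAW: for the events `E L` depending only on the coordinates
`< L + 1` with `pr (L + 1) (E L) ≤ C / L ^ 2` for `L ≥ L₀`: almost surely `¬ E L` for all large `L`
(`measure_limsup_atTop_eq_zero`, `ae_eventually_notMem`; `∑ C / L ^ 2 < ∞`). -/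
def S_BC : Prop := S_LAW → ∀ (k : ℕ) (Ω : Type) [MeasurableSpace Ω] (μ : Measure Ω)
  (θ : ℕ → Ω → ℕ), Model k μ θ → ∀ (E : ℕ → (ℕ → ℕ) → Prop) (C : ℝ) (L₀ : ℕ),
  (∀ L, ∀ t t' : ℕ → ℕ, (∀ x < L + 1, t x = t' x) → (E L t ↔ E L t')) →
  (∀ L, L₀ ≤ L → pr (Tk k) (L + 1) (E L) ≤ C / (L : ℝ) ^ 2) →
  ∀ᵐ ω ∂μ, ∃ L₁, ∀ L ≥ L₁, ¬ E L (fun x => θ x ω)

/-- the main theorem for one dimension `d` -/
def Main (k d : ℕ) : Prop := ∃ c C : ℝ, 0 < c ∧ c ≤ C ∧ ∀ Q : ℕ, 1 ≤ Q →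
  ∀ (Ω : Type) [MeasurableSpace Ω] (μ : Measure Ω) (θ : ℕ → Ω → ℕ), Model k μ θ →
    ∀ᵐ ω ∂μ, ∃ u₀ : ℕ, ∀ u ≥ u₀,
      c * rho k Q d u * (u : ℝ) ^ ((d : ℝ) / k - 1) ≤ N k Q (fun x => θ x ω) d u ∧
      (N k Q (fun x => θ x ω) d u : ℝ) ≤ C * rho k Q d u * (u : ℝ) ^ ((d : ℝ) / k - 1)

/-- the order of magnitude in dimension `d`, uniformly in `Q` -/
def UniformOrder (k d : ℕ) : Prop := ∃ c C : ℝ, 0 < c ∧ c ≤ C ∧ ∀ Q : ℕ, 1 ≤ Q →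
  ∀ (Ω : Type) [MeasurableSpace Ω] (μ : Measure Ω) (θ : ℕ → Ω → ℕ), Model k μ θ →
    ∀ᵐ ω ∂μ, ∃ u₀ : ℕ, ∀ u ≥ u₀, N k Q (fun x => θ x ω) d u ≠ 0 →
      c * (u : ℝ) ^ ((d : ℝ) / k - 1) ≤ N k Q (fun x => θ x ω) d u ∧
      (N k Q (fun x => θ x ω) d u : ℝ) ≤ C * (u : ℝ) ^ ((d : ℝ) / k - 1)

/-- the congruence form of the problem (as in the result `CongruenceThreshold`) -/
def CongruenceOrder (k d : ℕ) : Prop :=
  ∃ c C : ℝ, 0 < c ∧ c ≤ C ∧ ∀ q : ℕ, 1 ≤ q → ∀ n : ZMod q,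
    (∃ x : Fin d → ZMod q, ∑ i, x i ^ k = n) →
    c * (q : ℝ) ^ (d - 1) ≤ (Nat.card {x : Fin d → ZMod q // ∑ i, x i ^ k = n} : ℝ) ∧
      (Nat.card {x : Fin d → ZMod q // ∑ i, x i ^ k = n} : ℝ) ≤ C * (q : ℝ) ^ (d - 1)

/-- **ASM** (120 lines). The main theorem from UP and LOW: BC for the two events (they depend only on the
coordinates `< L + 1`, as `R d (L + 1) u` does), `L = ⌊u ^ (1/k)⌋`, NR, CNV, and
`2 ^ (-d) u ^ (d/k - 1) ≤ L ^ d / L ^ k ≤ 2 ^ d u ^ (d/k - 1)` or so (`L ≤ u ^ (1/k) < L + 1 ≤ 2 L`). -/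
def S_ASM : Prop := S_LAW → S_BC → S_NR → S_CNV → ∀ k d : ℕ, 2 ≤ k → k + 1 ≤ d →
  (∃ C : ℝ, 0 < C ∧ ∀ Q : ℕ, 1 ≤ Q → ∃ (C' : ℝ) (L₀ : ℕ), 1 ≤ L₀ ∧
    ∀ L : ℕ, L₀ ≤ L → pr (Tk k) (L + 1) (fun t => ∃ u, L ^ k ≤ u ∧ u < (L + 1) ^ k ∧
      C * ((L : ℝ) ^ d / (L : ℝ) ^ k) * ((M k Q d u : ℝ) / (Q : ℝ) ^ (d - 1)) <
        (R k Q t d (L + 1) u : ℝ)) ≤ C' / (L : ℝ) ^ 2) →
  (∃ c : ℝ, 0 < c ∧ ∀ Q : ℕ, 1 ≤ Q → ∃ (C' : ℝ) (L₀ : ℕ), 1 ≤ L₀ ∧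
    ∀ L : ℕ, L₀ ≤ L → pr (Tk k) (L + 1) (fun t => ∃ u, L ^ k ≤ u ∧ u < (L + 1) ^ k ∧
      (R k Q t d (L + 1) u : ℝ) <
        c * ((L : ℝ) ^ d / (L : ℝ) ^ k) * ((M k Q d u : ℝ) / (Q : ℝ) ^ (d - 1))) ≤ C' / (L : ℝ) ^ 2) →
  Main k d

/-- **THR** (120 lines). The order of magnitude is uniform in `Q` iff the congruence form holds.
`←`: `N u ≠ 0` gives a solution modulo `Q` (`a x` is congruent to `x ^ k`), so `c₁ ≤ rho ≤ C₁`.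
`→`: given `q` and `n` represented modulo `q`, take the model (MOD) and a point `ω` at which both statements
hold (almost surely), and a large `u` which is congruent to `n`: `N u ≥ c rho u ^ … > 0` as `rho > 0`, so
`c' u ^ … ≤ N u ≤ C rho u ^ …` gives `rho ≥ c' / C`, and `c rho u ^ … ≤ N u ≤ C' u ^ …` gives `rho ≤ C' / c`. -/
def S_THR : Prop := S_MOD → ∀ k d : ℕ, 2 ≤ k → k + 1 ≤ d → Main k d →
  (UniformOrder k d ↔ CongruenceOrder k d)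

end Pool.Agent.V5helper50.RS
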