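import Mathlib

/-!
# Project RS: lattice points on randomly perturbed arithmetic `k`-spheres (MP_927be3_nt)

THEOREM. Let `k ≥ 2`, `d ≥ k + 1`, `Q ≥ 1`, and let `a_x = x ^ k + Q θ_x`, `θ_x` independent and uniform on
`{0, …, 4 k x ^ (k-1) - 1}`. Almost surely, for all large `λ` the number `N_d(λ)` of `m ∈ ℤ ^ d` with
`a_|m_1| + … + a_|m_d| = λ` satisfies `c ρ λ ^ (d/k - 1) ≤ N_d(λ) ≤ C ρ λ ^ (d/k - 1)`, where
`ρ = #{x mod Q : ∑ x_i ^ k = λ} / Q ^ (d - 1)`, and `c, C > 0` depend only on `k, d` (not on `Q`). With the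
starting result `CongruenceThreshold`: the order of magnitude `N_d(λ) ≍ λ ^ (d/k - 1)` holds uniformly in `Q`
iff `d ≥ D(k)`.

Proof. `R j n u` = number of `x ∈ [0, n) ^ j` with `∑ a (x_i) = u`. Splitting by the largest coordinate `x`
(and its multiplicity `i`), `R j n u = ∑_{x < n} F j u x` (REC), `F j u x = ∑_{i ≥ 1} C(j, i) R (j-i) x (u - i a_x)`.
Given `θ_y`, `y < x`, the mean of `F j u x` over `θ_x` is at most the deterministic number `m j u x` (MA), with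
small sum (MB). An adapted Chernoff bound (CHU) gives the upper bounds, first crude ones for all `j` (BND).
Lower bound: only the tuples with `y_1, …, y_{d-1} ∈ (e, 2 e]`, `e = L / (8 d)`, `x ∈ (L/2, L]` (CHL, LOWM, LOW).

All probabilities are finite averages: `av T n F` is the mean of `F (t)` over `t_y ∈ {0, …, T_y - 1}`, `y < n`
(and `t_y = 0` for `y ≥ n`).

All jobs are independent (hypotheses `S_...`). Please tell helper50 at once if a statement is wrong or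
inconvenient; constants are free.
-/

set_option autoImplicit false

open Finset MeasureTheory ProbabilityTheory

namespace Pool.Agent.V5helper50.RS

/-! ## Averages -/

/-- the mean over the coordinates `0, …, n - 1` -/
noncomputable def av (T : ℕ → ℕ) : ℕ → ((ℕ → ℕ) → ℝ) → ℝ
  | 0, F => F (fun _ => 0)
  | n + 1, F => av T n (fun t => (∑ v ∈ range (T n), F (Function.update t n v)) / T n)

open scoped Classical in
/-- the probability of an event -/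
noncomputable def pr (T : ℕ → ℕ) (n : ℕ) (E : (ℕ → ℕ) → Prop) : ℝ :=
  av T n (fun t => if E t then 1 else 0)

variable {T : ℕ → ℕ}

theorem av_mono (hT : ∀ x, 0 < T x) (n : ℕ) {F G : (ℕ → ℕ) → ℝ}
    (h : ∀ t : ℕ → ℕ, (∀ x, t x < T x) → F t ≤ G t) : av T n F ≤ av T n G := by
  induction n generalizing F G with
  | zero => exact h _ (fun x => hT x)
  | succ n ih =>
    refine ih fun t ht => ?_
    have h0 : (0 : ℝ) < T n := by exact_mod_cast hT n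
    rw [div_le_div_iff_of_pos_right h0]
    refine sum_le_sum fun v hv => h _ fun x => ?_
    by_cases hx : x = n
    · subst hx
      rw [Function.update_self]
      exact mem_range.mp hv
    · rw [Function.update_of_ne hx]
      exact ht x

theorem av_smul (n : ℕ) (c : ℝ) (F : (ℕ → ℕ) → ℝ) : av T n (fun t => c * F t) = c * av T n F := by
  induction n generalizing F with
  | zero => rfl
  | succ n ih =>
    show av T n _ = c * av T n _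
    rw [← ih]
    congr 1
    funext t
    rw [← mul_sum, mul_div_assoc]

theorem av_add (n : ℕ) (F G : (ℕ → ℕ) → ℝ) :
    av T n (fun t => F t + G t) = av T n F + av T n G := by
  induction n generalizing F G with
  | zero => rfl
  | succ n ih =>
    show av T n _ = av T n _ + av T n _
    rw [← ih]
    congr 1
    funext t
    rw [sum_add_distrib, add_div]

theorem av_sum {ι : Type} (s : Finset ι) (n : ℕ) (F : ι → (ℕ → ℕ) → ℝ) :
    av T n (fun t => ∑ i ∈ s, F i t) = ∑ i ∈ s, av T n (F i) := by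
  classical
  induction s using Finset.induction_on with
  | empty =>
    have := av_smul (T := T) n 0 (fun _ => 0)
    simpa using this
  | insert i s hi ih =>
    simp only [sum_insert hi]
    rw [av_add, ih]

theorem av_const (hT : ∀ x, 0 < T x) (n : ℕ) (c : ℝ) : av T n (fun _ => c) = c := by
  induction n with
  | zero => rfl
  | succ n ih =>
    show av T n _ = c
    conv_rhs => rw [← ih]
    congr 1
    funext t
    have h0 : (T n : ℝ) ≠ 0 := by exact_mod_cast (hT n).ne'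
    rw [sum_const, card_range, nsmul_eq_mul]
    field_simp

theorem av_nonneg (hT : ∀ x, 0 < T x) (n : ℕ) {F : (ℕ → ℕ) → ℝ}
    (h : ∀ t : ℕ → ℕ, (∀ x, t x < T x) → 0 ≤ F t) : 0 ≤ av T n F := by
  rw [← av_const hT n 0]
  exact av_mono hT n h

theorem pr_mono (hT : ∀ x, 0 < T x) (n : ℕ) {E E' : (ℕ → ℕ) → Prop}
    (h : ∀ t : ℕ → ℕ, (∀ x, t x < T x) → E t → E' t) : pr T n E ≤ pr T n E' := by
  classical
  refine av_mono hT n fun t ht => ?_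
  by_cases h1 : E t
  · rw [if_pos h1, if_pos (h t ht h1)]
  · rw [if_neg h1]
    split_ifs <;> norm_num

theorem pr_nonneg (hT : ∀ x, 0 < T x) (n : ℕ) (E : (ℕ → ℕ) → Prop) : 0 ≤ pr T n E := by
  classical
  refine av_nonneg hT n fun t _ => ?_
  split_ifs <;> norm_num

theorem pr_or (hT : ∀ x, 0 < T x) (n : ℕ) (E E' : (ℕ → ℕ) → Prop) :
    pr T n (fun t => E t ∨ E' t) ≤ pr T n E + pr T n E' := by
  classical
  unfold pr
  rw [← av_add]
  refine av_mono hT n fun t _ => ?_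
  by_cases h1 : E t <;> by_cases h2 : E' t <;> simp [h1, h2]

theorem pr_union (hT : ∀ x, 0 < T x) (n : ℕ) {ι : Type} (s : Finset ι) (E : ι → (ℕ → ℕ) → Prop) :
    pr T n (fun t => ∃ i ∈ s, E i t) ≤ ∑ i ∈ s, pr T n (E i) := by
  classical
  unfold pr
  rw [← av_sum]
  refine av_mono hT n fun t _ => ?_
  split_ifs with h
  · obtain ⟨i, hi, h⟩ := h
    refine le_trans ?_ (single_le_sum (f := fun i => if E i t then (1 : ℝ) else 0)
      (fun j _ => by split_ifs <;> norm_num) hi)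
    simp only [if_pos h, le_refl]
  · exact sum_nonneg fun j _ => by split_ifs <;> norm_num

/-- enlarging the number of coordinates does not change the probability of an event which depends
only on the first ones -/
theorem pr_succ (hT : ∀ x, 0 < T x) (n : ℕ) {E : (ℕ → ℕ) → Prop}
    (h : ∀ t t', (∀ x < n, t x = t' x) → (E t ↔ E t')) : pr T (n + 1) E = pr T n E := by
  classical
  unfold pr
  show av T n _ = av T n _
  congr 1
  funext t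
  have h0 : (T n : ℝ) ≠ 0 := by exact_mod_cast (hT n).ne'
  have h1 : ∀ v ∈ range (T n), (if E (Function.update t n v) then (1 : ℝ) else 0) =
      if E t then 1 else 0 := by
    intro v _
    have := h (Function.update t n v) t (fun x hx => Function.update_of_ne (by omega) _ _)
    simp only [this]
  rw [sum_congr rfl h1, sum_const, card_range, nsmul_eq_mul]
  field_simp

/-! ## The perturbed powers -/

/-- the number of the possible shifts -/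
def Tk (k x : ℕ) : ℕ := max 1 (4 * k * x ^ (k - 1))

theorem Tk_pos (k x : ℕ) : 0 < Tk k x := lt_of_lt_of_le one_pos (le_max_left _ _)

/-- the perturbed power -/
def a (k Q : ℕ) (t : ℕ → ℕ) (x : ℕ) : ℕ := x ^ k + Q * t x

/-- the number of the `x ∈ [0, n) ^ j` with `∑ a (x_i) = u` -/
def R (k Q : ℕ) (t : ℕ → ℕ) (j n u : ℕ) : ℕ :=
  ((Fintype.piFinset fun _ : Fin j => range n).filter (fun x => ∑ i, a k Q t (x i) = u)).card

/-- the number of the solutions of `∑ x_i ^ k = u` modulo `Q` -/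
def M (k Q j u : ℕ) : ℕ :=
  ((Fintype.piFinset fun _ : Fin j => range Q).filter (fun x => (∑ i, x i ^ k) % Q = u % Q)).card

/-- the tuples with largest coordinate `x` -/
noncomputable def F (k Q j u x : ℕ) (t : ℕ → ℕ) : ℝ :=
  ∑ i ∈ Icc 1 j, (j.choose i : ℝ) *
    (if i * a k Q t x ≤ u then (R k Q t (j - i) x (u - i * a k Q t x) : ℝ) else 0)

/-- the number of the `y ∈ [0, x) ^ (j - i)` with `∑ y_l ^ k + i x ^ k` congruent to `u` and in a short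
interval -/
def w (k Q j u i x : ℕ) : ℕ :=
  ((Fintype.piFinset fun _ : Fin (j - i) => range x).filter (fun y =>
    (∑ l, y l ^ k + i * x ^ k) % Q = u % Q ∧ ∑ l, y l ^ k + i * x ^ k ≤ u ∧
    u < ∑ l, y l ^ k + i * x ^ k + j * Q * Tk k x)).card

/-- the bound for the conditional mean of `F` -/
noncomputable def m (k Q j u x : ℕ) : ℝ :=
  (∑ i ∈ Icc 1 j, (j.choose i : ℝ) * (w k Q j u i x : ℝ)) / Tk k x

/-- the tuples of `(e, 2 e] ^ j` with sum `u` -/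
def Rl (k Q : ℕ) (t : ℕ → ℕ) (e j u : ℕ) : ℕ :=
  ((Fintype.piFinset fun _ : Fin j => Ioc e (2 * e)).filter (fun x => ∑ i, a k Q t (x i) = u)).card

/-- crude upper bound -/
noncomputable def Bd (k : ℕ) (C : ℝ) (j L : ℕ) : ℝ :=
  C * (1 + Real.log L) ^ j * max 1 ((L : ℝ) ^ j / (L : ℝ) ^ k)

/-! ## Jobs: probability -/

/-- **LAW** (100 lines). The law of `(θ_x)_{x < n}` is uniform. Proof: induction on `n` for all
`G : (ℕ → ℕ) → ℝ` with `0 ≤ G ≤ 1` depending only on the coordinates `< n`: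
`∫ G (θ ω) dμ = av T n G`. Step: with `Y = (θ_x)_{x < n}` (values in the countable type `Fin n → ℕ` or
`range n → ℕ`) and `θ_n` independent (`iIndepFun.indepFun_finset`), the integral of
`G (θ) = ∑_{v < T n} 1[θ_n = v] G (update θ n v)` (pointwise, as `G` depends only on the coordinates `≤ n`) is
`∑_v μ (θ_n = v) ∫ G (update θ n v) dμ` (`IndepFun.integral_mul_eq_mul_integral` or so) `=
∫ (∑_v G (update θ n v)) / T n`. Alternatively: `μ (θ_x = s_x for all x < n) = ∏ 1 / T x` and sum over the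
finitely many `s`. -/
def S_LAW : Prop := ∀ (Ω : Type) [MeasurableSpace Ω] (μ : Measure Ω) [IsProbabilityMeasure μ]
  (θ : ℕ → Ω → ℕ), (∀ x, Measurable (θ x)) → iIndepFun θ μ → ∀ T : ℕ → ℕ, (∀ x, 0 < T x) →
  (∀ x ω, θ x ω < T x) → (∀ x, ∀ v < T x, μ.real {ω | θ x ω = v} = 1 / T x) →
  ∀ (n : ℕ) (E : (ℕ → ℕ) → Prop), (∀ t t', (∀ x < n, t x = t' x) → (E t ↔ E t')) →
    MeasurableSet {ω | E (fun x => θ x ω)} ∧ μ.real {ω | E (fun x => θ x ω)} = pr T n E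

/-- **CHU** (90 lines). Adapted Chernoff bound. Let `g x t = min (f x t) B / B ∈ [0, 1]`, `Z_n = exp (∑_{x<n} g x)`.
Claim: `av T n Z_n ≤ exp (2 ∑_{x<n} m x / B)` (for all `n' ≤ n`, by induction): `Z_{n+1} = Z_n exp (g n)`, in the
average over the coordinate `n` the factor `Z_n` is constant (`dep`), and `exp y ≤ 1 + 2 y` for `0 ≤ y ≤ 1`
(convexity, or `Real.exp_bound'`), so the average of `exp (g n)` is `≤ 1 + 2 m n / B ≤ exp (2 m n / B)`.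
On the event `g x = f x / B` and `exp (∑ f x / B) ≥ exp (2 ∑ m x / B + lam)`; so the indicator of the event is
`≤ exp (-2 ∑ m / B - lam) Z_n` (`av_mono`, `av_smul`). -/
def S_CHU : Prop := ∀ T : ℕ → ℕ, (∀ x, 0 < T x) → ∀ (n : ℕ) (f : ℕ → (ℕ → ℕ) → ℝ) (m : ℕ → ℝ)
  (B lam : ℝ), 0 < B → (∀ x < n, ∀ t, 0 ≤ f x t) →
  (∀ x < n, ∀ t t' : ℕ → ℕ, (∀ y ≤ x, t y = t' y) → f x t = f x t') →
  (∀ x < n, ∀ t : ℕ → ℕ, (∀ y, t y < T y) →
    (∑ v ∈ range (T x), f x (Function.update t x v)) / T x ≤ m x) →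
  pr T n (fun t => (∀ x < n, f x t ≤ B) ∧ 2 * ∑ x ∈ range n, m x + lam * B ≤ ∑ x ∈ range n, f x t) ≤
    Real.exp (-lam)

/-- **CHL** (120 lines). Lower tail. `f x t` (`n₀ ≤ x < n`) depends only on the coordinates `< n₀` and on `t x`.
For `t` with `G t` (`G` depends only on the coordinates `< n₀`) all `f x (update t x v) ≤ B` and the sum of the means
is at least `m`. Proof: by downward induction on `n' = n, n-1, …, n₀`: the indicator `1[G] 1[∑ f < m/2]` is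
`≤ 1[G] exp (m / (2 B)) ∏_{n₀ ≤ x < n} exp (-f x / B)`; averaging over the coordinates `n-1, n-2, …, n₀` replaces
`exp (-f x / B)` by its mean, which (for `G t`) is `≤ 1 - (1 - 1/e) mean_x / B ≤ exp (-(5/8) mean_x / B)` as
`exp (-y) ≤ 1 - (1 - 1/e) y`, `0 ≤ y ≤ 1`, `1 - 1/e > 5/8`. So the total is at most
`exp (m / (2 B) - (5/8) m / B) = exp (-m / (8 B))`. Suggested form of the induction: for
`n₀ ≤ n' ≤ n`, `av T n (fun t => 1[G t] ∏_{n₀ ≤ x < n'} h x (t) * K t) ≤ …`; or: prove for all `n ≥ n₀`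
`av T n (fun t => 1[G t] exp (5/8 ∑_{n₀≤x<n} M x t / B) ∏_{n₀≤x<n} exp (-f x t / B)) ≤ 1` by induction on `n`, where
`M x t = (∑_v f x (update t x v)) / T x` depends only on the coordinates `< n₀`; then use `m ≤ ∑ M x t`. -/
def S_CHL : Prop := ∀ T : ℕ → ℕ, (∀ x, 0 < T x) → ∀ (n₀ n : ℕ) (f : ℕ → (ℕ → ℕ) → ℝ)
  (G : (ℕ → ℕ) → Prop) (B m : ℝ), n₀ ≤ n → 0 < B →
  (∀ x, n₀ ≤ x → x < n → ∀ t, 0 ≤ f x t) →
  (∀ x, n₀ ≤ x → x < n → ∀ t t' : ℕ → ℕ, (∀ y < n₀, t y = t' y) → t x = t' x → f x t = f x t') →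
  (∀ t t' : ℕ → ℕ, (∀ y < n₀, t y = t' y) → (G t ↔ G t')) →
  (∀ t : ℕ → ℕ, (∀ y, t y < T y) → G t →
    (∀ x, n₀ ≤ x → x < n → f x t ≤ B) ∧
    m ≤ ∑ x ∈ Ico n₀ n, (∑ v ∈ range (T x), f x (Function.update t x v)) / T x) →
  pr T n (fun t => G t ∧ ∑ x ∈ Ico n₀ n, f x t < m / 2) ≤ Real.exp (-(m / (8 * B)))

/-! ## Jobs: combinatorics -/

/-- **REC** (120 lines). Splitting by the largest coordinate. First
`R j (n+1) u = ∑_{i ≤ j} C(j, i) * (if i * a n ≤ u then R (j - i) n (u - i * a n) else 0)`: classify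
`x ∈ [0, n+1) ^ j` by the set `I = {l | x_l = n}` (`|I| = i`; `Finset.powersetCard`, the other coordinates via an
equivalence `{l // l ∉ I} ≃ Fin (j - i)`), or by induction on `j` with Pascal's rule:
`R (j+1) n u = ∑_{x<n} [a x ≤ u] R j n (u - a x)` (first coordinate, `Fin.consEquiv`/`Fin.cons`). Easiest with
generating functions: `∑_u R j n u X^u = (∑_{x<n} X^(a x)) ^ j` in `ℕ[X]` and the binomial theorem
`(S_n + X^(a n)) ^ j = ∑_i C(j,i) X^(i a n) S_n^(j-i)` (`Polynomial.coeff_X_pow_mul'`). Then telescope over `n`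
(`i = 0` gives `R j n u`); `R j 0 u = 0` as `j ≥ 1`. -/
def S_REC : Prop := ∀ (k Q : ℕ) (t : ℕ → ℕ) (j n u : ℕ), 1 ≤ j →
  (R k Q t j n u : ℝ) = ∑ x ∈ range n, F k Q j u x t

/-- **MA** (90 lines). The conditional mean. For `x` and `t' = update t x v` the values at `y < x` do not change and
`a (t') x = x ^ k + Q v`. For fixed `i` the sum over `v` of `R (j-i) x (u - i (x^k + Q v))` is the number of the pairs
`(v, y)`, `y ∈ [0, x) ^ (j-i)`, with `∑ a (y_l) + i (x ^ k + Q v) = u`; `v` is determined by `y` (`i Q > 0`), and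
`∑ y_l ^ k + i x ^ k = u - Q (∑ t (y_l) + i v)` is congruent to `u`, `≤ u`, and `> u - j Q T_x`, as `t (y_l) < T (y_l) ≤ T x`
(`Tk` is monotone), `v < T x`. -/
def S_MA : Prop := ∀ k Q j u x : ℕ, 2 ≤ k → 1 ≤ Q → 1 ≤ j → ∀ t : ℕ → ℕ, (∀ y, t y < Tk k y) →
  (∑ v ∈ range (Tk k x), F k Q j u x (Function.update t x v)) / Tk k x ≤ m k Q j u x

/-- **INT** (80 lines). Let `x₀` be the largest `x` in the set (if it is non-empty). For `x` in the set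
`i x₀ ^ k ≤ Y`, so `i (x₀ ^ k - x ^ k) ≤ Y - i x ^ k < j Q T_x = 4 k j Q x ^ (k-1)` (`x ≥ 1`), and
`x₀ ^ k - x ^ k ≥ k (x₀ - x) x ^ (k-1)`. So `x₀ - x < 4 j Q`, and an interval of length `4 j Q` contains at most `4 j`
(we allow `4 j + 1`) numbers of one residue class. -/
def S_INT : Prop := ∀ k Q j i Y n r : ℕ, 2 ≤ k → 1 ≤ Q → 1 ≤ j → 1 ≤ i →
  ((range n).filter (fun x => 1 ≤ x ∧ i * x ^ k ≤ Y ∧ Y < i * x ^ k + j * Q * Tk k x ∧
    x % Q = r)).card ≤ 4 * j + 1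

/-- **RES** (80 lines). Sums of functions of the residues. `[0, n)` contains at most `n / Q + 1`, and `(e, 2 e]` at
least `e / Q` (natural division) numbers of each residue class (`Nat.count_modEq_card`, or directly); then by
induction on `j` or by fibering `x ↦ (x_l % Q)_l` over `(range Q) ^ j` (`card_piFinset`). -/
def S_RES : Prop := ∀ (Q j : ℕ) (G : (Fin j → ℕ) → ℕ), 1 ≤ Q →
  (∀ n, ∑ x ∈ Fintype.piFinset (fun _ : Fin j => range n), G (fun l => x l % Q) ≤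
    (n / Q + 1) ^ j * ∑ x ∈ Fintype.piFinset (fun _ : Fin j => range Q), G x) ∧
  ∀ e, (e / Q) ^ j * ∑ x ∈ Fintype.piFinset (fun _ : Fin j => range Q), G x ≤
    ∑ x ∈ Fintype.piFinset (fun _ : Fin j => Ioc e (2 * e)), G (fun l => x l % Q)

/-- **MB** (200 lines). The sum of the bounds `m`. Let `L ^ k ≤ u < (L + 1) ^ k`, `L ≥ L₀`. A term `w i x ≠ 0` has
`x ^ k ≤ u`, `x ≤ L`, and (`y_l < x`) `u < j x ^ k + j Q T_x`; so `x ≥ 4 k Q` for `L₀` large, `Q T_x = 4 k Q x^(k-1) ≤ x ^ k`,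
`u < 2 j x ^ k`, `x ^ k ≥ L ^ k / (2 j)`, and `T_x = 4 k x ^ k / x ≥ (4 k / (2 j)) L ^ k / L`. So it is enough to bound
`∑_x w i x`, the number of the pairs `(x, y)`.
`i = 1`: for given `y ∈ [0, L+1) ^ (j-1)` and each `r < Q` with `(∑ y_l ^ k + r ^ k) % Q = u % Q` there are at most
`4 j + 1` numbers `x` with `x % Q = r` (INT, `Y = u - ∑ y_l ^ k`). With `G (y) = #{r < Q | …}`, which depends only on the
residues of `y`, RES gives at most `(4 j + 1) ((L+1)/Q + 1) ^ (j-1) M j u`, as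
`∑_{y ∈ (range Q) ^ (j-1)} G y = M j u` (`Fin.cons`); and `(L+1)/Q + 1 ≤ 3 L / Q`.
`i ≥ 2`: for each of the at most `(L+1) ^ (j-i) ≤ (2 L) ^ (j-2)` tuples `y` at most `(4 j + 1) Q` numbers `x`. -/
def S_MB : Prop := S_INT → S_RES → ∀ k j : ℕ, 2 ≤ k → 1 ≤ j → ∃ C : ℝ, 0 < C ∧ ∀ Q : ℕ, 1 ≤ Q →
  ∃ (C' : ℝ) (L₀ : ℕ), 0 < C' ∧ 1 ≤ L₀ ∧ ∀ L u n : ℕ, L₀ ≤ L → L ^ k ≤ u → u < (L + 1) ^ k →
    ∑ x ∈ range n, m k Q j u x ≤
      C * ((L : ℝ) ^ j / (L : ℝ) ^ k) * ((M k Q j u : ℝ) / (Q : ℝ) ^ (j - 1)) +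
      C' * ((L : ℝ) ^ j / (L : ℝ) ^ (k + 1))

/-- **MC** (80 lines). A crude form for all `u`. From MB for `u ≥ L₀ ^ k` (apply it with `L'`, `L' ^ k ≤ u < (L'+1) ^ k`,
`L₀ ≤ L' ≤ L + 1`; `M j u ≤ Q ^ j`; `L' ^ j / L' ^ k ≤ 1` for `j ≤ k` and `≤ (2 L) ^ j / (2 L) ^ k` otherwise). For
`u < L₀ ^ k` only `x < L₀` matter (`w i x ≠ 0` requires `x ^ k ≤ u`), and `m x ≤ ∑_i C(j,i) x ^ (j-i)` is bounded. -/
def S_MC : Prop := S_MB → S_INT → S_RES → ∀ k Q j : ℕ, 2 ≤ k → 1 ≤ Q → 1 ≤ j → ∃ C : ℝ, 0 < C ∧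
  ∀ L u n : ℕ, 1 ≤ L → u ≤ (L + 1) ^ k →
    ∑ x ∈ range n, m k Q j u x ≤ C * max 1 ((L : ℝ) ^ j / (L : ℝ) ^ k)

/-- **BND** (180 lines). Crude bounds with high probability, by induction on `j`. `j = 0`: `R 0 n u ≤ 1`
(`C ≥ 1`). Step `j → j + 1 =: j'`: outside the bad event for `j` (constant `C₁`), for all `x ≤ L`, `u ≤ (L+1)^k`:
`F j' u x ≤ 2 ^ j' Bd C₁ j L =: B` (`Bd` is monotone in `j`). For each `n ≤ L + 1`, `u ≤ (L+1)^k` CHU with
`f x = F j' u x`, `T = Tk k` (the hypothesis on the means is MA; `F` depends only on the coordinates `≤ x`),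
`lam = (k + 4) log (L + 1) + …` shows that with probability `≤ exp (-lam)` (use `pr T (L+1) = pr T n` for events depending on the
coordinates `< n`, `pr_succ`; or apply CHU with `n := L + 1` and `f x := 0` for `x ≥ n`, simpler)
`R j' n u = ∑_{x<n} F j' u x ≥ 2 ∑ m + lam B`, where `2 ∑ m ≤ 2 C max 1 …` by MC. So with
`C₂` large `R j' n u ≤ Bd C₂ j' L`. Union bound over the `≤ (L+2) ((L+1)^k + 1)` pairs `(n, u)`. -/
def S_BND : Prop := S_CHU → S_REC → S_MA → (∀ k Q j : ℕ, 2 ≤ k → 1 ≤ Q → 1 ≤ j → ∃ C : ℝ, 0 < C ∧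
    ∀ L u n : ℕ, 1 ≤ L → u ≤ (L + 1) ^ k →
      ∑ x ∈ range n, m k Q j u x ≤ C * max 1 ((L : ℝ) ^ j / (L : ℝ) ^ k)) →
  ∀ k Q j : ℕ, 2 ≤ k → 1 ≤ Q → ∃ C : ℝ, 1 ≤ C ∧ ∀ L : ℕ, 1 ≤ L →
    pr (Tk k) (L + 1) (fun t => ∃ i ≤ j, ∃ n ≤ L + 1, ∃ u ≤ (L + 1) ^ k,
      Bd k C i L < (R k Q t i n u : ℝ)) ≤ C / (L : ℝ) ^ 2

/-- **UP** (150 lines). The upper bound. If `M d u = 0` then `R d (L+1) u = 0` (`a x` is congruent to `x ^ k`).
Otherwise `M / Q ^ (d-1) ≥ 1 / Q ^ (d-1)`. Outside the bad event of BND for `j = d - 1`: `F d u x ≤ B = 2 ^ d Bd C₁ (d-1) L`.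
CHU with `lam = (k + 2) log L + …`: with probability `≥ 1 - C / L ^ (k+2)`
`R d (L+1) u ≤ 2 ∑ m + lam B ≤ 2 C (L^d/L^k) (M/Q^(d-1)) + 2 C' L^d/L^(k+1) + lam B`, and the last two terms are
`≤ (L^d/L^k) / Q^(d-1)` for large `L` (as `d - 1 ≥ k`, `Bd … (d-1) L ≤ C₁ (1 + log L)^(d-1) L^(d-1)/L^k`). Union bound over the
`≤ (L+1)^k` numbers `u`. -/
def S_UP : Prop := S_CHU → S_REC → S_MA →
  (∀ k j : ℕ, 2 ≤ k → 1 ≤ j → ∃ C : ℝ, 0 < C ∧ ∀ Q : ℕ, 1 ≤ Q →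
    ∃ (C' : ℝ) (L₀ : ℕ), 0 < C' ∧ 1 ≤ L₀ ∧ ∀ L u n : ℕ, L₀ ≤ L → L ^ k ≤ u → u < (L + 1) ^ k →
      ∑ x ∈ range n, m k Q j u x ≤
        C * ((L : ℝ) ^ j / (L : ℝ) ^ k) * ((M k Q j u : ℝ) / (Q : ℝ) ^ (j - 1)) +
        C' * ((L : ℝ) ^ j / (L : ℝ) ^ (k + 1))) →
  (∀ k Q j : ℕ, 2 ≤ k → 1 ≤ Q → ∃ C : ℝ, 1 ≤ C ∧ ∀ L : ℕ, 1 ≤ L →
    pr (Tk k) (L + 1) (fun t => ∃ i ≤ j, ∃ n ≤ L + 1, ∃ u ≤ (L + 1) ^ k,
      Bd k C i L < (R k Q t i n u : ℝ)) ≤ C / (L : ℝ) ^ 2) →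
  ∀ k d : ℕ, 2 ≤ k → k + 1 ≤ d → ∃ C : ℝ, 0 < C ∧ ∀ Q : ℕ, 1 ≤ Q → ∃ (C' : ℝ) (L₀ : ℕ), 1 ≤ L₀ ∧
    ∀ L : ℕ, L₀ ≤ L → pr (Tk k) (L + 1) (fun t => ∃ u, L ^ k ≤ u ∧ u < (L + 1) ^ k ∧
      C * ((L : ℝ) ^ d / (L : ℝ) ^ k) * ((M k Q d u : ℝ) / (Q : ℝ) ^ (d - 1)) <
        (R k Q t d (L + 1) u : ℝ)) ≤ C' / (L : ℝ) ^ 2

/-- **LOWM** (180 lines). The mean for the lower bound. `e = L / (8 d)`, `y ∈ (e, 2 e] ^ (d-1)`,
`A = ∑ a (y_l) ≤ (d-1) ((2 e) ^ k + 4 k Q (2 e) ^ (k-1)) ≤ L ^ k / 4` for large `L`. For given `y` let `Z = u - A ≥ (3/4) L ^ k` and `x₀` the largest number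
with `x₀ ^ k ≤ Z`. For each residue `r < Q` with `(∑ y_l ^ k + r ^ k) % Q = u % Q` let `x` be the number of
`(x₀ - Q, x₀]` with `x % Q = r`; then `x ^ k ≤ Z < (x₀ + 1) ^ k ≤ (x + Q) ^ k ≤ x ^ k + k Q (x + Q) ^ (k-1) ≤ x ^ k + Q T_x`
(`(x + Q) ^ (k-1) ≤ 4 x ^ (k-1)` for `x ≥ k Q`: `(1 + 1/k)^(k-1) ≤ e`), and `Z - x ^ k` is divisible by `Q`
(`a (y_l)` is congruent to `y_l ^ k`), so `v = (Z - x ^ k) / Q < T_x` and `∑ a (y_l) + x ^ k + Q v = u`; and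
`L / 2 < x ≤ L` (`x₀ ^ k ≥ Z - k (x₀+1)^(k-1) ≥ L ^ k / 2 > ((L/2) + Q) ^ k`). So the sum over `x`, `v` is at least
`∑_y G (y)`, `G (y) = #{r < Q | …}`, which is `≥ (e / Q) ^ (d-1) M d u` by RES, and `T_x ≤ 4 k L ^ (k-1)`,
`e / Q ≥ L / (16 d Q)` for large `L`. -/
def S_LOWM : Prop := S_RES → ∀ k d : ℕ, 2 ≤ k → k + 1 ≤ d → ∃ c : ℝ, 0 < c ∧ ∀ Q : ℕ, 1 ≤ Q →
  ∃ L₀ : ℕ, 1 ≤ L₀ ∧ ∀ L u : ℕ, L₀ ≤ L → L ^ k ≤ u → u < (L + 1) ^ k →
    ∀ t : ℕ → ℕ, (∀ y, t y < Tk k y) →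
      c * ((L : ℝ) ^ d / (L : ℝ) ^ k) * ((M k Q d u : ℝ) / (Q : ℝ) ^ (d - 1)) ≤
        ∑ x ∈ Ico (L / 2 + 1) (L + 1), (∑ v ∈ range (Tk k x),
          (if x ^ k + Q * v ≤ u then (Rl k Q t (L / (8 * d)) (d - 1) (u - (x ^ k + Q * v)) : ℝ)
            else 0)) / Tk k x

/-- **LOW** (150 lines). The lower bound. `f x t = if a x ≤ u then Rl t e (d-1) (u - a x) else 0`, `e = L / (8 d)`, `n₀ = L / 2 + 1`,
`n = L + 1`. `R d (L+1) u ≥ ∑_{x ∈ [n₀, n)} f x t` (the tuples `(y, x)`, `Fin.snoc`; `2 e < L + 1`). `G t`: for all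
`v ≤ (L+1)^k`: `R (d-1) n₀ v ≤ B := Bd C₁ (d-1) L` (depends only on the coordinates `< n₀`); `Rl t e (d-1) v ≤ R (d-1) n₀ v` as
`2 e < n₀`. The means are given by LOWM (`a k Q (update t x v) x = x ^ k + Q v`, and `Rl` does not change). If `M d u ≠ 0` then
`m = c (L^d/L^k) / Q^(d-1)·M ≥ c (L^d/L^k)/Q^(d-1)`, `m / (8 B) ≥ c'(Q) L / (1 + log L)^(d-1) ≥ (k + 2) log L` for large `L`. So
the probability that `R d (L+1) u < m / 2` for some `u` is at most the one of BND plus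
`(L+1)^k exp (-(m/(8B))) ≤ C' / L ^ 2`. (`c / 2` is the constant of the result; if `M d u = 0` nothing is claimed.) -/
def S_LOW : Prop := S_CHL →
  (∀ k d : ℕ, 2 ≤ k → k + 1 ≤ d → ∃ c : ℝ, 0 < c ∧ ∀ Q : ℕ, 1 ≤ Q →
    ∃ L₀ : ℕ, 1 ≤ L₀ ∧ ∀ L u : ℕ, L₀ ≤ L → L ^ k ≤ u → u < (L + 1) ^ k →
      ∀ t : ℕ → ℕ, (∀ y, t y < Tk k y) →
        c * ((L : ℝ) ^ d / (L : ℝ) ^ k) * ((M k Q d u : ℝ) / (Q : ℝ) ^ (d - 1)) ≤
          ∑ x ∈ Ico (L / 2 + 1) (L + 1), (∑ v ∈ range (Tk k x),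
            (if x ^ k + Q * v ≤ u then (Rl k Q t (L / (8 * d)) (d - 1) (u - (x ^ k + Q * v)) : ℝ)
              else 0)) / Tk k x) →
  (∀ k Q j : ℕ, 2 ≤ k → 1 ≤ Q → ∃ C : ℝ, 1 ≤ C ∧ ∀ L : ℕ, 1 ≤ L →
    pr (Tk k) (L + 1) (fun t => ∃ i ≤ j, ∃ n ≤ L + 1, ∃ u ≤ (L + 1) ^ k,
      Bd k C i L < (R k Q t i n u : ℝ)) ≤ C / (L : ℝ) ^ 2) →
  ∀ k d : ℕ, 2 ≤ k → k + 1 ≤ d → ∃ c : ℝ, 0 < c ∧ ∀ Q : ℕ, 1 ≤ Q → ∃ (C' : ℝ) (L₀ : ℕ), 1 ≤ L₀ ∧
    ∀ L : ℕ, L₀ ≤ L → pr (Tk k) (L + 1) (fun t => ∃ u, L ^ k ≤ u ∧ u < (L + 1) ^ k ∧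
      (R k Q t d (L + 1) u : ℝ) <
        c * ((L : ℝ) ^ d / (L : ℝ) ^ k) * ((M k Q d u : ℝ) / (Q : ℝ) ^ (d - 1))) ≤ C' / (L : ℝ) ^ 2

end Pool.Agent.V5helper50.RS
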